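import Pool.Agent.H68.L.R_seed8.Y697.PQ.Est

/-! Several symmetric forms which are completed by the same form: the numbers of the nonsingular
completions are asymptotically independent. -/

set_option autoImplicit false

namespace Pool.Agent.Y697.PQ

open Finset Module Filter Topology
open Pool.Agent.Y697.PP (Sy Nd YY mem_YY)

section jj
variable {V : Type} [AddCommGroup V] [Module (ZMod 2) V]

/-- the obstruction to the independence -/
def JJ (B B' : LinearMap.BilinForm (ZMod 2) V) (W : Submodule (ZMod 2) V) :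
    Submodule (ZMod 2) (V × V) where
  carrier := {p | p.1 + p.2 ∈ W ∧ B p.1 = B' p.2 ∧ ∀ w ∈ W, B p.1 w = 0}
  add_mem' := by
    rintro p q ⟨h1, h2, h3⟩ ⟨h4, h5, h6⟩
    refine ⟨?_, ?_, fun w hw => ?_⟩
    · rw [Prod.fst_add, Prod.snd_add, show p.1 + q.1 + (p.2 + q.2) = (p.1 + p.2) + (q.1 + q.2) by
        abel]
      exact W.add_mem h1 h4
    · rw [Prod.fst_add, Prod.snd_add, map_add, map_add, h2, h5]
    · rw [Prod.fst_add, map_add, LinearMap.add_apply, h3 w hw, h6 w hw, add_zero]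
  zero_mem' := by
    refine ⟨?_, ?_, fun w _ => ?_⟩
    · rw [Prod.fst_zero, Prod.snd_zero, add_zero]
      exact W.zero_mem
    · rw [Prod.fst_zero, Prod.snd_zero, map_zero, map_zero]
    · rw [Prod.fst_zero, map_zero, LinearMap.zero_apply]
  smul_mem' := by
    rintro c p ⟨h1, h2, h3⟩
    refine ⟨?_, ?_, fun w hw => ?_⟩
    · rw [Prod.smul_fst, Prod.smul_snd, ← smul_add]
      exact W.smul_mem c h1
    · rw [Prod.smul_fst, Prod.smul_snd, map_smul, map_smul, h2]
    · rw [Prod.smul_fst, map_smul, LinearMap.smul_apply, h3 w hw, smul_zero]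

theorem mem_JJ {B B' : LinearMap.BilinForm (ZMod 2) V} {W : Submodule (ZMod 2) V} {p : V × V} :
    p ∈ JJ B B' W ↔ p.1 + p.2 ∈ W ∧ B p.1 = B' p.2 ∧ ∀ w ∈ W, B p.1 w = 0 := Iff.rfl

theorem finrank_JJ [Finite V] {B B' Y₀ : LinearMap.BilinForm (ZMod 2) V}
    {W : Submodule (ZMod 2) V} (hY : Y₀ ∈ YY W) {j : ℕ} (v : Fin j → V) :
    finrank (ZMod 2) (JJ (B + Y₀) (B' + Y₀) (W ⊔ Submodule.span (ZMod 2) (Set.range v))) ≤
      finrank (ZMod 2) (JJ B B' W) + j := by
  have hfin : Module.Finite (ZMod 2) V := Module.Finite.of_finite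
  have hY' := mem_YY.1 hY
  set U := Submodule.span (ZMod 2) (Set.range v) with hU
  set J' := JJ (B + Y₀) (B' + Y₀) (W ⊔ U) with hJ'
  set f : (V × V) →ₗ[ZMod 2] V ⧸ W :=
    W.mkQ.comp (LinearMap.fst (ZMod 2) V V + LinearMap.snd (ZMod 2) V V) with hf
  set g : J' →ₗ[ZMod 2] V ⧸ W := f.comp J'.subtype with hg
  have h1 := LinearMap.finrank_range_add_finrank_ker g
  have h2 : finrank (ZMod 2) (LinearMap.range g) ≤ j := by
    have h3 : LinearMap.range g ≤ Submodule.span (ZMod 2) (Set.range fun i => W.mkQ (v i)) := by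
      rintro _ ⟨⟨p, hp⟩, rfl⟩
      have h4 := (mem_JJ.1 hp).1
      have h5 : W.mkQ (p.1 + p.2) ∈ (W ⊔ U).map W.mkQ := ⟨_, h4, rfl⟩
      rw [Submodule.map_sup] at h5
      have h6 : W.map W.mkQ = ⊥ := by
        rw [Submodule.eq_bot_iff]
        rintro _ ⟨w, hw, rfl⟩
        simpa using hw
      rw [h6, bot_sup_eq, hU, Submodule.map_span, ← Set.range_comp] at h5
      exact h5
    have h7 := Submodule.finrank_mono h3
    have h8 := finrank_range_le_card (R := ZMod 2) (fun i : Fin j => W.mkQ (v i))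
    rw [Fintype.card_fin] at h8
    exact h7.trans h8
  have h3 : finrank (ZMod 2) (LinearMap.ker g) ≤ finrank (ZMod 2) (JJ B B' W) := by
    have h4 : ∀ z : LinearMap.ker g, ((z : J') : V × V) ∈ JJ B B' W := by
      rintro ⟨⟨p, hp⟩, hz⟩
      have h5 := mem_JJ.1 hp
      have h6 : p.1 + p.2 ∈ W := by
        have : W.mkQ (p.1 + p.2) = 0 := LinearMap.mem_ker.1 hz
        rw [Submodule.mkQ_apply, Submodule.Quotient.mk_eq_zero] at this
        exact this
      have h7 : Y₀ p.1 + Y₀ p.2 = 0 := by rw [← map_add, hY'.2 _ h6]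
      rw [mem_JJ]
      refine ⟨h6, ?_, fun w hw => ?_⟩
      · have h8 := h5.2.1
        rw [LinearMap.add_apply, LinearMap.add_apply, ← eq_of_add h7] at h8
        exact add_right_cancel h8
      · have h8 := h5.2.2 w (Submodule.mem_sup_left hw)
        rw [LinearMap.add_apply, LinearMap.add_apply, hY'.1 p.1 w, hY'.2 w hw,
          LinearMap.zero_apply, add_zero] at h8
        exact h8
    refine LinearMap.finrank_le_finrank_of_injective
      (f := LinearMap.codRestrict (JJ B B' W) (J'.subtype.comp (LinearMap.ker g).subtype) h4) ?_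
    intro z z' h
    have h5 := congrArg (fun q : JJ B B' W => (q : V × V)) h
    apply Subtype.ext
    apply Subtype.ext
    exact h5
  omega

theorem nd_JJ {B B' Y₀ : LinearMap.BilinForm (ZMod 2) V} [Finite V]
    {W : Submodule (ZMod 2) V} (hN : Nd B' W) (hY : Y₀ ∈ YY W) {U : Submodule (ZMod 2) V}
    (hU : ∀ u ∈ U, Y₀ u = B u) (hUW : ∀ u ∈ U, ∀ w ∈ W, B u w = 0)
    (hgood : ∀ u ∈ U, u ≠ 0 → ∀ b, (u, b) ∉ JJ B B' W) : Nd (B' + Y₀) (W ⊔ U) := by
  have := Fintype.ofFinite V
  have hY' := mem_YY.1 hY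
  intro x hx hx0
  obtain ⟨w, hw, u, hu, rfl⟩ := Submodule.mem_sup.1 hx
  rw [add_eq_zero_iff', map_add, hY'.2 w hw, zero_add, hU u hu] at hx0
  by_cases h0 : u = 0
  · rw [h0, map_zero, add_zero] at hx0
    rw [h0, add_zero]
    exact hN w hw hx0.symm
  · exfalso
    refine hgood u hu h0 (w + u) (mem_JJ.2 ⟨?_, hx0, fun w' hw' => hUW u hu w' hw'⟩)
    show u + (w + u) ∈ W
    rw [show u + (w + u) = w + (u + u) by abel, dbl, add_zero]
    exact hw

theorem nd_top [Finite V] {B : LinearMap.BilinForm (ZMod 2) V} :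
    Nd B ⊤ ↔ finrank (ZMod 2) (LinearMap.ker B) = 0 := by
  have hfin : Module.Finite (ZMod 2) V := Module.Finite.of_finite
  rw [Submodule.finrank_eq_zero, LinearMap.ker_eq_bot']
  exact ⟨fun h x hx => h x trivial hx, fun h x _ hx => h x hx⟩

end jj

open Classical in
theorem sum_pp {V : Type} [AddCommGroup V] [Module (ZMod 2) V] [Fintype V]
    {𝒴 : Finset (LinearMap.BilinForm (ZMod 2) V)} {B : LinearMap.BilinForm (ZMod 2) V} {γ N δ : ℝ}
    (hN : 0 ≤ N) {J : ℕ}
    (h : ∀ j ≤ J, |∑ Y ∈ 𝒴, ij j (2 ^ finrank (ZMod 2) (LinearMap.ker (B + Y))) -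
      γ * 2 ^ (j * (j - 1) / 2) * N| ≤ 2 ^ (j * (j - 1) / 2) * N * δ) (hδ : 0 ≤ δ) :
    |∑ Y ∈ 𝒴, pp J (2 ^ finrank (ZMod 2) (LinearMap.ker (B + Y))) -
      γ * (∑ j ∈ range (J + 1), (-1) ^ j * ff j) * N| ≤ N * ((J + 1) * δ) := by
  have h1 : ∑ Y ∈ 𝒴, pp J (2 ^ finrank (ZMod 2) (LinearMap.ker (B + Y))) =
      ∑ j ∈ range (J + 1), (-1) ^ j * cf j *
        ∑ Y ∈ 𝒴, ij j (2 ^ finrank (ZMod 2) (LinearMap.ker (B + Y))) := by
    simp only [← pp_eq, Finset.mul_sum]
    exact Finset.sum_comm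
  have h2 : γ * (∑ j ∈ range (J + 1), (-1) ^ j * ff j) * N =
      ∑ j ∈ range (J + 1), (-1) ^ j * cf j * (γ * 2 ^ (j * (j - 1) / 2) * N) := by
    rw [Finset.mul_sum, Finset.sum_mul]
    refine Finset.sum_congr rfl fun j _ => ?_
    unfold ff
    ring
  rw [h1, h2, ← Finset.sum_sub_distrib]
  refine (Finset.abs_sum_le_sum_abs _ _).trans ?_
  have h3 : ∀ j ∈ range (J + 1), |(-1) ^ j * cf j *
      ∑ Y ∈ 𝒴, ij j (2 ^ finrank (ZMod 2) (LinearMap.ker (B + Y))) -
      (-1) ^ j * cf j * (γ * 2 ^ (j * (j - 1) / 2) * N)| ≤ N * δ := by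
    intro j hj
    rw [Finset.mem_range] at hj
    have h4 := h j (by omega)
    rw [← mul_sub, abs_mul, abs_mul, abs_pow, abs_neg, abs_one, one_pow, one_mul,
      abs_of_pos (cf_pos j)]
    refine (mul_le_mul_of_nonneg_left h4 (cf_pos j).le).trans ?_
    have h5 := ff_le_one j
    unfold ff at h5
    have h6 : cf j * (2 ^ (j * (j - 1) / 2) * N * δ) = cf j * 2 ^ (j * (j - 1) / 2) * (N * δ) := by
      ring
    rw [h6]
    exact mul_le_of_le_one_left (mul_nonneg hN hδ) h5
  refine (Finset.sum_le_sum h3).trans (le_of_eq ?_)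
  rw [Finset.sum_const, Finset.card_range, nsmul_eq_mul]
  push_cast
  ring

open Classical in
/-- **Theorem J** -/
theorem thmJ (M : ℕ) : ∀ ε : ℝ, 0 < ε → ∃ R : ℕ, ∀ (V : Type) [AddCommGroup V]
    [Module (ZMod 2) V] [Fintype V] (W : Submodule (ZMod 2) V)
    (B : Fin M → LinearMap.BilinForm (ZMod 2) V) (d t : ℕ),
    (∀ k, Sy (B k)) → (∀ k, Nd (B k) W) →
    (∀ k l, k ≠ l → finrank (ZMod 2) (JJ (B k) (B l) W) ≤ d) → finrank (ZMod 2) W ≤ d →
    finrank (ZMod 2) W + t = finrank (ZMod 2) V → d + R ≤ t →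
    |(((YY W).filter fun Y => ∀ k, Nd (B k + Y) ⊤).card : ℝ) - gi ^ M * (YY W).card| ≤
      ε * (YY W).card := by
  induction M with
  | zero =>
    intro ε hε
    refine ⟨0, ?_⟩
    intro V _ _ _ W B d t _ _ _ _ _ _
    have h1 : ((YY W).filter fun Y => ∀ k : Fin 0, Nd (B k + Y) ⊤) = YY W :=
      Finset.filter_true_of_mem fun Y _ k => k.elim0
    rw [h1, pow_zero, one_mul, sub_self, abs_zero]
    positivity
  | succ M ih =>
    intro ε hε
    obtain ⟨n₀, hn₀⟩ := (Metric.tendsto_atTop.1 gi_tendsto) (ε / 3) (by positivity)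
    set J : ℕ := 2 * n₀ + 1 with hJ
    set η : ℝ := ε / (3 * (J + 2)) with hη
    have hη0 : 0 < η := by positivity
    obtain ⟨R₁, hR₁⟩ := ih η hη0
    obtain ⟨R₂, hR₂⟩ : ∃ R₂ : ℕ, ((M : ℝ) + 1) * 2 ^ (J + 1) * (J + 2) * 3 / ε < 2 ^ R₂ :=
      pow_unbounded_of_one_lt _ (by norm_num)
    refine ⟨R₁ + R₂ + 2 * (J + 1), ?_⟩
    intro V _ _ _ W B d t hSy hNd hJJ hWd ht hR
    have hfin : Module.Finite (ZMod 2) V := Module.Finite.of_finite
    obtain ⟨G, hG⟩ : ∃ G : LinearMap.BilinForm (ZMod 2) V → Prop,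
        ∀ Y, G Y ↔ ∀ k : Fin M, Nd (B k.succ + Y) ⊤ := ⟨_, fun _ => Iff.rfl⟩
    set N : ℝ := ((YY W).card : ℝ) with hNdef
    have hN0 : 0 ≤ N := Nat.cast_nonneg _
    -- the exceptional set
    set Z : Finset V := (univ.filter fun x => x ∈ W) ∪
      (univ : Finset (Fin M)).biUnion fun k =>
        (univ.filter fun p : V × V => p ∈ JJ (B 0) (B k.succ) W).image Prod.fst with hZ
    have hcard : ∀ (E : Type) [AddCommGroup E] [Module (ZMod 2) E] [Fintype E]
        (S : Submodule (ZMod 2) E), (univ.filter fun x => x ∈ S).card = 2 ^ finrank (ZMod 2) S := by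
      intro E _ _ _ S
      have hfinE : Module.Finite (ZMod 2) E := Module.Finite.of_finite
      have h1 : (univ.filter fun x => x ∈ S).card = Nat.card S := by
        rw [Nat.card_eq_fintype_card, ← Fintype.card_coe]
        exact Fintype.card_congr (Equiv.subtypeEquivRight fun x => by simp)
      rw [h1, Module.natCard_eq_pow_finrank (K := ZMod 2), Nat.card_zmod]
    have hZc : Z.card ≤ (M + 1) * 2 ^ d := by
      have h1 : (univ.filter fun x => x ∈ W).card ≤ 2 ^ d := by
        rw [hcard V W]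
        exact Nat.pow_le_pow_right (by norm_num) hWd
      have h2 : ((univ : Finset (Fin M)).biUnion fun k =>
          (univ.filter fun p : V × V => p ∈ JJ (B 0) (B k.succ) W).image Prod.fst).card ≤
          M * 2 ^ d := by
        refine Finset.card_biUnion_le.trans ?_
        have h3 : ∀ k ∈ (univ : Finset (Fin M)), ((univ.filter fun p : V × V =>
            p ∈ JJ (B 0) (B k.succ) W).image Prod.fst).card ≤ 2 ^ d := by
          intro k _
          refine Finset.card_image_le.trans ?_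
          rw [hcard (V × V) (JJ (B 0) (B k.succ) W)]
          exact Nat.pow_le_pow_right (by norm_num) (hJJ 0 k.succ (Fin.succ_ne_zero k).symm)
        refine (Finset.sum_le_sum h3).trans (le_of_eq ?_)
        rw [Finset.sum_const, Finset.card_univ, Fintype.card_fin, smul_eq_mul]
      refine (Finset.card_union_le _ _).trans ?_
      rw [add_mul, one_mul]
      omega
    set δ : ℝ := η + Z.card * 2 ^ (J + 1) / 2 ^ t with hδ
    have hδ0 : 0 ≤ δ := by positivity
    -- the estimate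
    have hest : ∀ j ≤ J + 1, |∑ Y ∈ (YY W).filter G,
        ij j (2 ^ finrank (ZMod 2) (LinearMap.ker (B 0 + Y))) -
        gi ^ M * 2 ^ (j * (j - 1) / 2) * N| ≤ 2 ^ (j * (j - 1) / 2) * N * δ := by
      intro j hj
      have hgi0 : 0 ≤ gi := le_trans (by norm_num) gi_ge
      have h1 := est (hSy 0) (hNd 0) ht G (γ := gi ^ M) (ε := η) (pow_nonneg hgi0 M)
        (pow_le_one₀ hgi0 gi_le) hη0.le (j := j) (by omega) Z
        (fun w hw => Finset.mem_union_left _ (Finset.mem_filter.2 ⟨Finset.mem_univ _, hw⟩)) ?_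
      · refine h1.trans ?_
        apply mul_le_mul_of_nonneg_left _ (by positivity)
        rw [hδ]
        have h2 : (2 : ℝ) ^ j ≤ 2 ^ (J + 1) := pow_le_pow_right₀ (by norm_num) hj
        gcongr
      · intro v hvN hLI hvZ hd Y₀ hY₀ hY₀U
        have hY' := mem_YY.1 hY₀
        have hUW : ∀ u ∈ Submodule.span (ZMod 2) (Set.range v), ∀ w ∈ W, B 0 u w = 0 := by
          intro u hu
          have : Submodule.span (ZMod 2) (Set.range v) ≤ Nn (B 0) W := by
            rw [Submodule.span_le]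
            rintro x ⟨i, rfl⟩
            exact hvN i
          exact mem_Nn.1 (this hu)
        have hfr := finrank_sup_span hLI hd
        have h2 := hR₁ V (W ⊔ Submodule.span (ZMod 2) (Set.range v))
          (fun k => B k.succ + Y₀) (d + j) (t - j)
          (fun k => (hSy k.succ).add hY'.1) (fun k => ?_) (fun k l hkl => ?_) (by omega) (by omega)
          (by omega)
        · have h3 : ((YY (W ⊔ Submodule.span (ZMod 2) (Set.range v))).filter
              fun Y => G (Y₀ + Y)) =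
              (YY (W ⊔ Submodule.span (ZMod 2) (Set.range v))).filter
              fun Y => ∀ k : Fin M, Nd (B k.succ + Y₀ + Y) ⊤ := by
            ext Y
            simp only [Finset.mem_filter, hG, add_assoc]
          rw [h3]
          exact h2
        · refine nd_JJ (hNd k.succ) hY₀ hY₀U hUW ?_
          intro u hu hu0 b hb
          obtain ⟨c, rfl⟩ := (Submodule.mem_span_range_iff_exists_fun (ZMod 2)).1 hu
          refine hvZ c (fun hc => hu0 (by rw [hc]; simp)) ?_
          rw [hZ]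
          refine Finset.mem_union_right _ (Finset.mem_biUnion.2 ⟨k, Finset.mem_univ _, ?_⟩)
          exact Finset.mem_image.2 ⟨_, Finset.mem_filter.2 ⟨Finset.mem_univ _, hb⟩, rfl⟩
        · have h3 := finrank_JJ (B := B k.succ) (B' := B l.succ) hY₀ v
          have h4 := hJJ k.succ l.succ (fun h => hkl (Fin.succ_injective _ h))
          omega
    have hδ' : (J + 2) * δ ≤ 2 * ε / 3 := by
      have h1 : ((J : ℝ) + 2) * η = ε / 3 := by
        rw [hη]
        field_simp
      have h2 : (Z.card : ℝ) * 2 ^ (J + 1) / 2 ^ t ≤ (M + 1) * 2 ^ (J + 1) / 2 ^ R₂ := by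
        rw [div_le_div_iff₀ (by positivity) (by positivity)]
        have h3 : (Z.card : ℝ) ≤ (M + 1) * 2 ^ d := by exact_mod_cast hZc
        have h4 : (2 : ℝ) ^ d * 2 ^ R₂ ≤ 2 ^ t := by
          rw [← pow_add]
          exact pow_le_pow_right₀ (by norm_num) (by omega)
        calc (Z.card : ℝ) * 2 ^ (J + 1) * 2 ^ R₂ ≤ (M + 1) * 2 ^ d * 2 ^ (J + 1) * 2 ^ R₂ := by
              gcongr
          _ = (M + 1) * 2 ^ (J + 1) * (2 ^ d * 2 ^ R₂) := by ring
          _ ≤ _ := by gcongr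
      have h3 : ((J : ℝ) + 2) * ((M + 1) * 2 ^ (J + 1) / 2 ^ R₂) ≤ ε / 3 := by
        rw [← mul_div_assoc, div_le_div_iff₀ (by positivity) (by norm_num)]
        rw [div_lt_iff₀ hε] at hR₂
        nlinarith
      have h4 : ((J : ℝ) + 2) * δ = (J + 2) * η + (J + 2) * (Z.card * 2 ^ (J + 1) / 2 ^ t) := by
        rw [hδ]
        ring
      have h5 : ((J : ℝ) + 2) * (Z.card * 2 ^ (J + 1) / 2 ^ t) ≤ ε / 3 :=
        (mul_le_mul_of_nonneg_left h2 (by positivity)).trans h3
      rw [h4, h1]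
      linarith
    -- the count
    have hcnt : (((YY W).filter fun Y => ∀ k, Nd (B k + Y) ⊤).card : ℝ) =
        ∑ Y ∈ (YY W).filter G,
          (if finrank (ZMod 2) (LinearMap.ker (B 0 + Y)) = 0 then (1 : ℝ) else 0) := by
      rw [← Finset.sum_filter, Finset.sum_const, nsmul_eq_mul, mul_one, Finset.filter_filter]
      congr 2
      ext Y
      simp only [Finset.mem_filter, hG]
      rw [Fin.forall_fin_succ, nd_top, and_comm (a := finrank (ZMod 2) _ = 0)]
    have hsum : ∀ n, n₀ ≤ n → |∑ i ∈ range n, (-1) ^ i * ff i - gi| ≤ ε / 3 := by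
      intro n hn
      have := hn₀ n hn
      rw [Real.dist_eq] at this
      exact this.le
    have hgi0 : 0 ≤ gi := le_trans (by norm_num) gi_ge
    have hgM : gi ^ M ≤ 1 := pow_le_one₀ hgi0 gi_le
    have hgM0 : 0 ≤ gi ^ M := pow_nonneg hgi0 M
    have hmain : ∀ I, I ≤ J + 1 → n₀ ≤ I + 1 →
        |∑ Y ∈ (YY W).filter G, pp I (2 ^ finrank (ZMod 2) (LinearMap.ker (B 0 + Y))) -
          gi ^ (M + 1) * N| ≤ ε * N := by
      intro I hI hI'
      have h1 := sum_pp (γ := gi ^ M) (N := N) (δ := δ) hN0 (J := I)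
        (fun j hj => hest j (by omega)) hδ0
      have h2 := hsum (I + 1) hI'
      have h3 : |gi ^ M * (∑ j ∈ range (I + 1), (-1) ^ j * ff j) * N - gi ^ (M + 1) * N| ≤
          ε / 3 * N := by
        have h4 : gi ^ M * (∑ j ∈ range (I + 1), (-1) ^ j * ff j) * N - gi ^ (M + 1) * N =
            gi ^ M * ((∑ j ∈ range (I + 1), (-1) ^ j * ff j) - gi) * N := by
          rw [pow_succ]
          ring
        rw [h4, abs_mul, abs_mul, abs_of_nonneg hN0, abs_of_nonneg hgM0]
        apply mul_le_mul_of_nonneg_right _ hN0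
        calc gi ^ M * |(∑ j ∈ range (I + 1), (-1) ^ j * ff j) - gi| ≤ 1 * (ε / 3) :=
              mul_le_mul hgM h2 (abs_nonneg _) zero_le_one
          _ = _ := one_mul _
      have h5 : N * (((I : ℝ) + 1) * δ) ≤ N * (2 * ε / 3) := by
        apply mul_le_mul_of_nonneg_left _ hN0
        refine le_trans ?_ hδ'
        apply mul_le_mul_of_nonneg_right _ hδ0
        have : (I : ℝ) ≤ J + 1 := by exact_mod_cast hI
        linarith
      have h6 := abs_sub_le
        (∑ Y ∈ (YY W).filter G, pp I (2 ^ finrank (ZMod 2) (LinearMap.ker (B 0 + Y))))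
        (gi ^ M * (∑ j ∈ range (I + 1), (-1) ^ j * ff j) * N) (gi ^ (M + 1) * N)
      have h7 := h1.trans h5
      linarith
    have hlo := hmain J (by omega) (by omega)
    have hhi := hmain (J + 1) le_rfl (by omega)
    have hJo : Odd J := ⟨n₀, hJ⟩
    have hJe : Even (J + 1) := hJo.add_one
    have h1 : ∑ Y ∈ (YY W).filter G, pp J (2 ^ finrank (ZMod 2) (LinearMap.ker (B 0 + Y))) ≤
        ∑ Y ∈ (YY W).filter G,
          (if finrank (ZMod 2) (LinearMap.ker (B 0 + Y)) = 0 then (1 : ℝ) else 0) :=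
      Finset.sum_le_sum fun Y _ => pp_odd hJo _
    have h2 : ∑ Y ∈ (YY W).filter G,
          (if finrank (ZMod 2) (LinearMap.ker (B 0 + Y)) = 0 then (1 : ℝ) else 0) ≤
        ∑ Y ∈ (YY W).filter G, pp (J + 1) (2 ^ finrank (ZMod 2) (LinearMap.ker (B 0 + Y))) :=
      Finset.sum_le_sum fun Y _ => pp_even hJe _
    rw [hcnt]
    rw [abs_le] at hlo hhi ⊢
    constructor <;> linarith

end Pool.Agent.Y697.PQ
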