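import Pool.Agent.H68.L.R_seed8.Y697.PQ.Ten

/-! The mean number of the independent tuples in the kernel on an event. -/

set_option autoImplicit false

namespace Pool.Agent.Y697.PQ

open Finset Module
open Pool.Agent.Y697.PP (Sy Nd YY mem_YY Ph mem_Ph card_YY card_Ph finrank_sup two0 z2 exists_row)

variable {V : Type} [AddCommGroup V] [Module (ZMod 2) V] [Fintype V]

theorem add_eq_zero_iff' {B Y : LinearMap.BilinForm (ZMod 2) V} {x : V} :
    (B + Y) x = 0 ↔ Y x = B x := by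
  rw [LinearMap.add_apply]
  constructor
  · intro h
    exact (eq_of_add h).symm
  · intro h
    rw [h]
    exact dbl _

theorem finrank_sup_span {W : Submodule (ZMod 2) V} {j : ℕ} {v : Fin j → V}
    (hv : LinearIndependent (ZMod 2) v)
    (hd : ∀ x ∈ Submodule.span (ZMod 2) (Set.range v), x ∈ W → x = 0) :
    finrank (ZMod 2) (W ⊔ Submodule.span (ZMod 2) (Set.range v) : Submodule (ZMod 2) V) =
      finrank (ZMod 2) W + j := by
  have hfin : Module.Finite (ZMod 2) V := Module.Finite.of_finite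
  have h1 := Submodule.finrank_sup_add_finrank_inf_eq W (Submodule.span (ZMod 2) (Set.range v))
  have h2 : W ⊓ Submodule.span (ZMod 2) (Set.range v) = ⊥ := by
    rw [Submodule.eq_bot_iff]
    intro x hx
    rw [Submodule.mem_inf] at hx
    exact hd x hx.2 hx.1
  have h3 : finrank (ZMod 2) (Submodule.span (ZMod 2) (Set.range v)) = j := by
    rw [finrank_span_eq_card hv, Fintype.card_fin]
  rw [h2, finrank_bot, h3] at h1
  omega

theorem tri_add {t j : ℕ} (hj : j ≤ t) :
    t * j + (t - j) * (t - j + 1) / 2 = j * (j - 1) / 2 + t * (t + 1) / 2 := by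
  obtain ⟨s, rfl⟩ := Nat.exists_eq_add_of_le hj
  rw [Nat.add_sub_cancel_left]
  have h1 : 2 ∣ s * (s + 1) := (Nat.even_mul_succ_self s).two_dvd
  have h2 : 2 ∣ (j + s) * (j + s + 1) := (Nat.even_mul_succ_self (j + s)).two_dvd
  have h3 : 2 ∣ j * (j - 1) := (Nat.even_mul_pred_self j).two_dvd
  obtain ⟨a, ha⟩ := h1
  obtain ⟨b, hb⟩ := h2
  obtain ⟨c, hc⟩ := h3
  rw [ha, hb, hc]
  simp only [Nat.mul_div_cancel_left _ (show 0 < 2 by norm_num)]
  rcases j with _ | j
  · simp only [zero_add, mul_zero, zero_mul] at *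
    omega
  · rw [Nat.add_sub_cancel] at hc
    have h4 : 2 * ((j + 1 + s) * (j + 1)) + s * (s + 1) =
        (j + 1) * j + (j + 1 + s) * (j + 1 + s + 1) := by ring
    rw [ha, hb, hc] at h4
    omega

open Classical in
theorem est {W : Submodule (ZMod 2) V} {B : LinearMap.BilinForm (ZMod 2) V} (hB : Sy B)
    (hN : Nd B W) {t : ℕ} (ht : finrank (ZMod 2) W + t = finrank (ZMod 2) V)
    (G : LinearMap.BilinForm (ZMod 2) V → Prop) {γ ε : ℝ} (hγ0 : 0 ≤ γ) (hγ1 : γ ≤ 1) (hε : 0 ≤ ε)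
    {j : ℕ} (hj : j ≤ t) (Z : Finset V) (hZ : ∀ w ∈ W, w ∈ Z)
    (hgood : ∀ v : Fin j → V, (∀ i, v i ∈ Nn B W) → LinearIndependent (ZMod 2) v →
      (∀ c : Fin j → ZMod 2, c ≠ 0 → ∑ i, c i • v i ∉ Z) →
      (∀ x ∈ Submodule.span (ZMod 2) (Set.range v), x ∈ W → x = 0) →
      ∀ Y₀ ∈ YY W, (∀ u ∈ Submodule.span (ZMod 2) (Set.range v), Y₀ u = B u) →
      |(((YY (W ⊔ Submodule.span (ZMod 2) (Set.range v))).filter fun Y => G (Y₀ + Y)).card : ℝ) -
        γ * (YY (W ⊔ Submodule.span (ZMod 2) (Set.range v))).card| ≤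
      ε * (YY (W ⊔ Submodule.span (ZMod 2) (Set.range v))).card) :
    |∑ Y ∈ (YY W).filter G, ij j (2 ^ finrank (ZMod 2) (LinearMap.ker (B + Y))) -
      γ * 2 ^ (j * (j - 1) / 2) * (YY W).card| ≤
    2 ^ (j * (j - 1) / 2) * (YY W).card * (ε + Z.card * 2 ^ j / 2 ^ t) := by
  have hfin : Module.Finite (ZMod 2) V := Module.Finite.of_finite
  set 𝒩 : Finset V := univ.filter fun x => x ∈ Nn B W with h𝒩
  have hNc : 𝒩.card = 2 ^ t := by
    have h1 : 𝒩.card = Nat.card (Nn B W) := by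
      rw [Nat.card_eq_fintype_card, ← Fintype.card_coe]
      exact Fintype.card_congr (Equiv.subtypeEquivRight fun x => by simp [h𝒩])
    rw [h1, Module.natCard_eq_pow_finrank (K := ZMod 2), finrank_Nn hB hN ht, Nat.card_zmod]
  set P : LinearMap.BilinForm (ZMod 2) V → (Fin j → V) → Prop := fun Y v =>
    (∀ i, v i ∈ LinearMap.ker (B + Y)) ∧ LinearIndependent (ZMod 2) v with hP
  set a : (Fin j → V) → ℕ := fun v => (((YY W).filter G).filter fun Y => P Y v).card with ha
  set y : ℝ := 2 ^ ((t - j) * (t - j + 1) / 2) with hy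
  have hy0 : 0 < y := by positivity
  have hker : ∀ Y ∈ YY W, ∀ x, x ∈ LinearMap.ker (B + Y) → x ∈ Nn B W := by
    intro Y hY x hx w hw
    have hY' := mem_YY.1 hY
    rw [LinearMap.mem_ker, add_eq_zero_iff'] at hx
    rw [← hx, hY'.1, hY'.2 w hw, LinearMap.zero_apply]
  have hkerW : ∀ Y ∈ YY W, ∀ x, x ∈ LinearMap.ker (B + Y) → x ∈ W → x = 0 := by
    intro Y hY x hx hxW
    have hY' := mem_YY.1 hY
    rw [LinearMap.mem_ker, add_eq_zero_iff', hY'.2 x hxW] at hx
    exact hN x hxW hx.symm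
  -- double count
  have h1 : ∑ Y ∈ (YY W).filter G, ij j (2 ^ finrank (ZMod 2) (LinearMap.ker (B + Y))) =
      ∑ v ∈ Fintype.piFinset (fun _ : Fin j => 𝒩), (a v : ℝ) := by
    have h2 : ∀ Y ∈ (YY W).filter G, ij j (2 ^ finrank (ZMod 2) (LinearMap.ker (B + Y))) =
        (((Fintype.piFinset (fun _ : Fin j => 𝒩)).filter fun v => P Y v).card : ℝ) := by
      intro Y hY
      rw [← card_LI]
      congr 2
      ext v
      simp only [Finset.mem_filter, Finset.mem_univ, true_and, Fintype.mem_piFinset, h𝒩, hP]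
      constructor
      · rintro ⟨h3, h4⟩
        exact ⟨fun i => hker Y (Finset.mem_filter.1 hY).1 _ (h3 i), h3, h4⟩
      · exact fun h3 => h3.2
    rw [Finset.sum_congr rfl h2]
    have h3 := Finset.sum_card_bipartiteAbove_eq_sum_card_bipartiteBelow
      (s := (YY W).filter G) (t := Fintype.piFinset (fun _ : Fin j => 𝒩)) (r := P)
    have h4 : ((∑ Y ∈ (YY W).filter G,
        ((Fintype.piFinset (fun _ : Fin j => 𝒩)).filter fun v => P Y v).card : ℕ) : ℝ) =
        ((∑ v ∈ Fintype.piFinset (fun _ : Fin j => 𝒩), a v : ℕ) : ℝ) := by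
      exact_mod_cast h3
    push_cast at h4
    exact h4
  -- all tuples
  have hall : ∀ v ∈ Fintype.piFinset (fun _ : Fin j => 𝒩), (a v : ℝ) ≤ y := by
    intro v _
    rcases Nat.eq_zero_or_pos (a v) with h0 | h0
    · rw [h0, Nat.cast_zero]
      exact hy0.le
    · obtain ⟨Y₁, hY₁⟩ := Finset.card_pos.1 h0
      rw [Finset.mem_filter, Finset.mem_filter] at hY₁
      obtain ⟨⟨hY₁W, -⟩, hker₁, hLI⟩ := hY₁
      have hsp : Submodule.span (ZMod 2) (Set.range v) ≤ LinearMap.ker (B + Y₁) := by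
        rw [Submodule.span_le]
        rintro x ⟨i, rfl⟩
        exact hker₁ i
      have hd : ∀ x ∈ Submodule.span (ZMod 2) (Set.range v), x ∈ W → x = 0 := fun x hx hxW =>
        hkerW Y₁ hY₁W x (hsp hx) hxW
      have h2 : a v ≤ ((YY W).filter fun Y => True ∧ ∀ i, Y (v i) = Y₁ (v i)).card := by
        apply Finset.card_le_card
        intro Y hY
        rw [Finset.mem_filter, Finset.mem_filter] at hY
        rw [Finset.mem_filter]
        refine ⟨hY.1.1, trivial, fun i => ?_⟩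
        have h3 := add_eq_zero_iff'.1 (LinearMap.mem_ker.1 (hY.2.1 i))
        have h4 := add_eq_zero_iff'.1 (LinearMap.mem_ker.1 (hker₁ i))
        rw [h3, h4]
      have h3 := card_cond v hY₁W (fun _ => True)
      have h4 : ((YY W).filter fun Y => True ∧ ∀ i, Y (v i) = Y₁ (v i)).card =
          2 ^ ((t - j) * (t - j + 1) / 2) := by
        rw [← card_YY_eq (t - j) (W ⊔ Submodule.span (ZMod 2) (Set.range v))
          (by rw [finrank_sup_span hLI hd]; omega)]
        rw [Finset.filter_true] at h3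
        convert h3
      rw [h4] at h2
      rw [hy]
      exact_mod_cast h2
  -- good tuples
  set Gd := (Fintype.piFinset (fun _ : Fin j => 𝒩)).filter fun v =>
    ∀ c : Fin j → ZMod 2, c ≠ 0 → ∑ i, c i • v i ∉ Z with hGd
  have hgd : ∀ v ∈ Gd, |(a v : ℝ) - γ * y| ≤ ε * y := by
    intro v hv
    rw [hGd, Finset.mem_filter, Fintype.mem_piFinset] at hv
    obtain ⟨hv1, hv2⟩ := hv
    have hvN : ∀ i, v i ∈ Nn B W := fun i => (Finset.mem_filter.1 (hv1 i)).2
    have hLI : LinearIndependent (ZMod 2) v := by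
      rw [Fintype.linearIndependent_iff]
      intro c hc
      by_contra hne
      push Not at hne
      obtain ⟨i, hi⟩ := hne
      refine hv2 c (fun h => hi (congrFun h i)) ?_
      rw [hc]
      exact hZ 0 W.zero_mem
    have hd : ∀ x ∈ Submodule.span (ZMod 2) (Set.range v), x ∈ W → x = 0 := by
      intro x hx hxW
      obtain ⟨c, rfl⟩ := (Submodule.mem_span_range_iff_exists_fun (ZMod 2)).1 hx
      by_cases hc : c = 0
      · rw [hc]
        simp
      · exact absurd (hZ _ hxW) (hv2 c hc)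
    have hUN : ∀ u ∈ Submodule.span (ZMod 2) (Set.range v), ∀ w ∈ W, B u w = 0 := by
      intro u hu
      have : Submodule.span (ZMod 2) (Set.range v) ≤ Nn B W := by
        rw [Submodule.span_le]
        rintro x ⟨i, rfl⟩
        exact hvN i
      exact mem_Nn.1 (this hu)
    obtain ⟨Y₀, hY₀, hY₀U⟩ := exists_form hB hd hUN
    have h2 := hgood v hvN hLI hv2 hd Y₀ hY₀ hY₀U
    rw [card_YY_eq (t - j) _ (by rw [finrank_sup_span hLI hd]; omega)] at h2
    have h3 := card_cond v hY₀ G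
    have h4 : a v = ((YY W).filter fun Y => G Y ∧ ∀ i, Y (v i) = Y₀ (v i)).card := by
      rw [ha]
      simp only
      congr 1
      ext Y
      simp only [Finset.mem_filter, hP, LinearMap.mem_ker, add_eq_zero_iff']
      constructor
      · rintro ⟨⟨h5, h6⟩, h7, -⟩
        refine ⟨h5, h6, fun i => ?_⟩
        rw [h7 i, hY₀U _ (Submodule.subset_span ⟨i, rfl⟩)]
      · rintro ⟨h5, h6, h7⟩
        refine ⟨⟨h5, h6⟩, fun i => ?_, hLI⟩
        rw [h7 i, hY₀U _ (Submodule.subset_span ⟨i, rfl⟩)]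
    have h5 : a v = ((YY (W ⊔ Submodule.span (ZMod 2) (Set.range v))).filter
        fun Y => G (Y₀ + Y)).card := by
      rw [h4]
      convert h3
    rw [h5, hy]
    push_cast at h2
    exact h2
  -- bad tuples
  set Bd := (Fintype.piFinset (fun _ : Fin j => 𝒩)).filter fun v =>
    ¬ ∀ c : Fin j → ZMod 2, c ≠ 0 → ∑ i, c i • v i ∉ Z with hBd
  have hN0 : (0 : ℝ) < 2 ^ t := by positivity
  have hbad : (Bd.card : ℝ) ≤ (2 ^ t) ^ j * (Z.card * 2 ^ j / 2 ^ t) := by
    have h2 : Bd ⊆ (univ.filter fun c : Fin j → ZMod 2 => c ≠ 0).biUnion fun c =>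
        (Fintype.piFinset fun _ : Fin j => 𝒩).filter fun v => ∑ i, c i • v i ∈ Z := by
      intro v hv
      rw [hBd, Finset.mem_filter] at hv
      obtain ⟨hv1, hv2⟩ := hv
      push Not at hv2
      obtain ⟨c, hc, hcZ⟩ := hv2
      rw [Finset.mem_biUnion]
      exact ⟨c, Finset.mem_filter.2 ⟨Finset.mem_univ _, hc⟩, Finset.mem_filter.2 ⟨hv1, hcZ⟩⟩
    have h3 : Bd.card * 𝒩.card ≤ 2 ^ j * (Z.card * 𝒩.card ^ j) := by
      calc Bd.card * 𝒩.card ≤ (∑ c ∈ univ.filter (fun c : Fin j → ZMod 2 => c ≠ 0),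
          ((Fintype.piFinset fun _ : Fin j => 𝒩).filter fun v => ∑ i, c i • v i ∈ Z).card) *
            𝒩.card := Nat.mul_le_mul_right _ ((Finset.card_le_card h2).trans Finset.card_biUnion_le)
        _ = ∑ c ∈ univ.filter (fun c : Fin j → ZMod 2 => c ≠ 0),
          ((Fintype.piFinset fun _ : Fin j => 𝒩).filter fun v => ∑ i, c i • v i ∈ Z).card *
            𝒩.card := Finset.sum_mul _ _ _
        _ ≤ ∑ c ∈ univ.filter (fun c : Fin j → ZMod 2 => c ≠ 0), Z.card * 𝒩.card ^ j :=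
          Finset.sum_le_sum fun c hc => card_comb 𝒩 Z c (Finset.mem_filter.1 hc).2
        _ = (univ.filter (fun c : Fin j → ZMod 2 => c ≠ 0)).card * (Z.card * 𝒩.card ^ j) := by
          rw [Finset.sum_const, smul_eq_mul]
        _ ≤ _ := by
          apply Nat.mul_le_mul_right
          refine (Finset.card_filter_le _ _).trans (le_of_eq ?_)
          rw [Finset.card_univ, Fintype.card_fun, ZMod.card, Fintype.card_fin]
    rw [hNc] at h3
    have h4 : (Bd.card : ℝ) * 2 ^ t ≤ 2 ^ j * (Z.card * (2 ^ t) ^ j) := by exact_mod_cast h3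
    have h5 : ((2 : ℝ) ^ t) ^ j * (Z.card * 2 ^ j / 2 ^ t) =
        2 ^ j * (Z.card * (2 ^ t) ^ j) / 2 ^ t := by ring
    rw [h5, le_div_iff₀ hN0]
    exact h4
  have hcount : (Gd.card : ℝ) + Bd.card = (2 ^ t) ^ j := by
    have h2 := Finset.card_filter_add_card_filter_not (s := Fintype.piFinset (fun _ : Fin j => 𝒩))
      (fun v => ∀ c : Fin j → ZMod 2, c ≠ 0 → ∑ i, c i • v i ∉ Z)
    have h3 : (Fintype.piFinset (fun _ : Fin j => 𝒩)).card = (2 ^ t) ^ j := by
      rw [Fintype.card_piFinset, Finset.prod_const, Finset.card_univ, Fintype.card_fin, hNc]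
    rw [h3] at h2
    exact_mod_cast h2
  have hsplit : ∑ v ∈ Fintype.piFinset (fun _ : Fin j => 𝒩), (a v : ℝ) - γ * y * (2 ^ t) ^ j =
      ∑ v ∈ Gd, ((a v : ℝ) - γ * y) + ∑ v ∈ Bd, ((a v : ℝ) - γ * y) := by
    rw [Finset.sum_sub_distrib, Finset.sum_sub_distrib, Finset.sum_const, Finset.sum_const,
      nsmul_eq_mul, nsmul_eq_mul, ← hcount,
      ← Finset.sum_filter_add_sum_filter_not (Fintype.piFinset (fun _ : Fin j => 𝒩))
        (fun v => ∀ c : Fin j → ZMod 2, c ≠ 0 → ∑ i, c i • v i ∉ Z)]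
    ring
  have hG : |∑ v ∈ Gd, ((a v : ℝ) - γ * y)| ≤ (2 ^ t) ^ j * (ε * y) := by
    refine (Finset.abs_sum_le_sum_abs _ _).trans ((Finset.sum_le_sum hgd).trans ?_)
    rw [Finset.sum_const, nsmul_eq_mul]
    have : (Gd.card : ℝ) ≤ (2 ^ t) ^ j := by
      have : (0 : ℝ) ≤ Bd.card := Nat.cast_nonneg _
      linarith
    exact mul_le_mul_of_nonneg_right this (by positivity)
  have hBb : |∑ v ∈ Bd, ((a v : ℝ) - γ * y)| ≤ (2 ^ t) ^ j * (Z.card * 2 ^ j / 2 ^ t) * y := by
    refine (Finset.abs_sum_le_sum_abs _ _).trans ?_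
    have h2 : ∀ v ∈ Bd, |(a v : ℝ) - γ * y| ≤ y := by
      intro v hv
      have h3 := hall v (Finset.mem_filter.1 hv).1
      have h4 : (0 : ℝ) ≤ a v := Nat.cast_nonneg _
      have h5 : γ * y ≤ y := mul_le_of_le_one_left hy0.le hγ1
      have h6 : 0 ≤ γ * y := by positivity
      rw [abs_le]
      constructor <;> linarith
    refine (Finset.sum_le_sum h2).trans ?_
    rw [Finset.sum_const, nsmul_eq_mul]
    exact mul_le_mul_of_nonneg_right hbad hy0.le
  have hyt : ((2 : ℝ) ^ t) ^ j * y = 2 ^ (j * (j - 1) / 2) * (YY W).card := by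
    rw [card_YY_eq t W ht, hy]
    push_cast
    rw [← pow_mul, ← pow_add, ← pow_add, tri_add hj]
  have h2 : γ * 2 ^ (j * (j - 1) / 2) * ((YY W).card : ℝ) = γ * y * (2 ^ t) ^ j := by
    rw [mul_assoc, ← hyt]
    ring
  rw [h1, h2, hsplit]
  refine (abs_add_le _ _).trans ((add_le_add hG hBb).trans (le_of_eq ?_))
  rw [← hyt]
  ring

end Pool.Agent.Y697.PQ
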