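import Mathlib

/-! Alternating sums of the numbers of independent tuples. -/

set_option autoImplicit false

namespace Pool.Agent.Y697.PQ

open Finset Filter Topology

/-- `1 / ((2 - 1) (4 - 1) ⋯ (2 ^ j - 1))` -/
noncomputable def cf : ℕ → ℝ
  | 0 => 1
  | j + 1 => cf j / (2 ^ (j + 1) - 1)

theorem pm1 (j : ℕ) : (1 : ℝ) ≤ 2 ^ (j + 1) - 1 := by
  have : (1 : ℝ) ≤ 2 ^ j := one_le_pow₀ (by norm_num)
  rw [pow_succ]
  linarith

theorem cf_pos (j : ℕ) : 0 < cf j := by
  induction j with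
  | zero => exact one_pos
  | succ j ih =>
    rw [cf]
    exact div_pos ih (lt_of_lt_of_le one_pos (pm1 j))

/-- the number of independent `j`-tuples if `x` is the number of elements of the space -/
noncomputable def ij (j : ℕ) (x : ℝ) : ℝ := ∏ i ∈ range j, (x - 2 ^ i)

noncomputable def pp (J : ℕ) (x : ℝ) : ℝ := ∏ i ∈ range J, ((2 ^ (i + 1) - x) / (2 ^ (i + 1) - 1))

theorem ij_shift (j : ℕ) (x : ℝ) :
    (-1) ^ (j + 1) * cf (j + 1) * ij (j + 1) x = (1 - x) / (2 ^ (j + 1) - 1) * pp j x := by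
  induction j with
  | zero =>
    simp only [cf, ij, pp, zero_add, pow_one, Finset.range_one, Finset.prod_singleton, pow_zero,
      Finset.range_zero, Finset.prod_empty, mul_one]
    norm_num
  | succ j ih =>
    have h1 := pm1 (j + 1)
    have h2 := pm1 j
    have e1 : (-1 : ℝ) ^ (j + 1 + 1) * cf (j + 1 + 1) * ij (j + 1 + 1) x =
        ((-1) ^ (j + 1) * cf (j + 1) * ij (j + 1) x) * (2 ^ (j + 1) - x) / (2 ^ (j + 1 + 1) - 1) := by
      rw [show cf (j + 1 + 1) = cf (j + 1) / (2 ^ (j + 1 + 1) - 1) from rfl, ij,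
        Finset.prod_range_succ, ← ij]
      field_simp
      ring
    have e2 : pp (j + 1) x = pp j x * ((2 ^ (j + 1) - x) / (2 ^ (j + 1) - 1)) := by
      rw [pp, Finset.prod_range_succ, ← pp]
    rw [e1, ih, e2]
    have h3 : (2 : ℝ) ^ (j + 1 + 1) - 1 ≠ 0 := by linarith
    have h4 : (2 : ℝ) ^ (j + 1) - 1 ≠ 0 := by linarith
    field_simp

theorem pp_eq (J : ℕ) (x : ℝ) :
    ∑ j ∈ range (J + 1), (-1) ^ j * cf j * ij j x = pp J x := by
  induction J with
  | zero => simp [cf, ij, pp]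
  | succ J ih =>
    rw [Finset.sum_range_succ, ih, ij_shift]
    have e2 : pp (J + 1) x = pp J x * ((2 ^ (J + 1) - x) / (2 ^ (J + 1) - 1)) := by
      rw [pp, Finset.prod_range_succ, ← pp]
    have h4 : (2 : ℝ) ^ (J + 1) - 1 ≠ 0 := by have := pm1 J; linarith
    rw [e2]
    field_simp
    ring

theorem pp_one (J : ℕ) : pp J 1 = 1 := by
  unfold pp
  refine Finset.prod_eq_one fun i _ => div_self ?_
  have := pm1 i
  linarith

theorem pp_mid {J r : ℕ} (h1 : 1 ≤ r) (h2 : r ≤ J) : pp J (2 ^ r) = 0 := by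
  unfold pp
  refine Finset.prod_eq_zero (i := r - 1) (Finset.mem_range.2 (by omega)) ?_
  rw [Nat.sub_add_cancel h1, sub_self, zero_div]

theorem pp_big {J r : ℕ} (h2 : J < r) : 0 ≤ (-1) ^ J * pp J (2 ^ r) := by
  unfold pp
  have h3 : (-1 : ℝ) ^ J = ∏ _i ∈ range J, (-1 : ℝ) := by rw [Finset.prod_const, Finset.card_range]
  rw [h3, ← Finset.prod_mul_distrib]
  refine Finset.prod_nonneg fun i hi => ?_
  rw [Finset.mem_range] at hi
  have h4 : (2 : ℝ) ^ (i + 1) ≤ 2 ^ r := pow_le_pow_right₀ (by norm_num) (by omega)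
  have h5 := pm1 i
  rw [neg_one_mul, ← neg_div]
  exact div_nonneg (by linarith) (by linarith)

theorem pp_even {J : ℕ} (hJ : Even J) (r : ℕ) : (if r = 0 then (1 : ℝ) else 0) ≤ pp J (2 ^ r) := by
  split_ifs with h
  · rw [h, pow_zero, pp_one]
  · rcases le_or_gt r J with h1 | h1
    · rw [pp_mid (by omega) h1]
    · have := pp_big h1
      rw [hJ.neg_one_pow, one_mul] at this
      exact this

theorem pp_odd {J : ℕ} (hJ : Odd J) (r : ℕ) : pp J (2 ^ r) ≤ (if r = 0 then (1 : ℝ) else 0) := by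
  split_ifs with h
  · rw [h, pow_zero, pp_one]
  · rcases le_or_gt r J with h1 | h1
    · rw [pp_mid (by omega) h1]
    · have := pp_big h1
      rw [hJ.neg_one_pow] at this
      linarith

/-- the expected numbers -/
noncomputable def ff (j : ℕ) : ℝ := cf j * 2 ^ (j * (j - 1) / 2)

theorem tri (j : ℕ) : (j + 1) * (j + 1 - 1) / 2 = j * (j - 1) / 2 + j := by
  rcases j with _ | j
  · rfl
  · have h1 : (j + 1 + 1) * (j + 1 + 1 - 1) = (j + 1) * (j + 1 - 1) + 2 * (j + 1) := by
      simp only [Nat.add_sub_cancel]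
      ring
    rw [h1]
    omega

theorem ff_succ (j : ℕ) : ff (j + 1) = ff j * (2 ^ j / (2 ^ (j + 1) - 1)) := by
  unfold ff
  rw [tri, pow_add, show cf (j + 1) = cf j / (2 ^ (j + 1) - 1) from rfl]
  ring

theorem ff_pos (j : ℕ) : 0 < ff j := mul_pos (cf_pos j) (by positivity)

theorem ff_anti : Antitone ff := by
  refine antitone_nat_of_succ_le fun j => ?_
  rw [ff_succ]
  refine mul_le_of_le_one_right (ff_pos j).le ?_
  have h1 := pm1 j
  rw [div_le_one (by linarith)]
  have h2 : (1 : ℝ) ≤ 2 ^ j := one_le_pow₀ (by norm_num)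
  rw [pow_succ]
  linarith

theorem ff_zero : ff 0 = 1 := by simp [ff, cf]

theorem ff_one : ff 1 = 1 := by rw [ff_succ, ff_zero]; norm_num

theorem ff_le (j : ℕ) : ff (j + 1) ≤ (2 / 3) ^ j := by
  induction j with
  | zero => rw [ff_one]; simp
  | succ j ih =>
    rw [ff_succ, pow_succ]
    apply mul_le_mul ih _ (by have := pm1 (j + 1); positivity) (by positivity)
    have h1 := pm1 (j + 1)
    rw [div_le_iff₀ (by linarith)]
    have h2 : (1 : ℝ) ≤ 2 ^ j := one_le_pow₀ (by norm_num)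
    rw [show j + 1 + 1 = j + 2 from rfl, pow_add, pow_succ]
    norm_num
    linarith

theorem ff_le_one (j : ℕ) : ff j ≤ 1 := by
  have := ff_anti (Nat.zero_le j)
  rwa [ff_zero] at this

theorem ff_tendsto : Tendsto ff atTop (𝓝 0) := by
  rw [← tendsto_add_atTop_iff_nat 1]
  refine squeeze_zero (fun j => (ff_pos _).le) ff_le ?_
  exact tendsto_pow_atTop_nhds_zero_of_lt_one (by norm_num) (by norm_num)

theorem exists_g : ∃ g : ℝ, Tendsto (fun n => ∑ i ∈ range n, (-1) ^ i * ff i) atTop (𝓝 g) :=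
  ff_anti.tendsto_alternating_series_of_tendsto_zero ff_tendsto

/-- the limit of the proportion of the nonsingular symmetric matrices -/
noncomputable def gi : ℝ := Classical.choose exists_g

theorem gi_tendsto : Tendsto (fun n => ∑ i ∈ range n, (-1) ^ i * ff i) atTop (𝓝 gi) :=
  Classical.choose_spec exists_g

theorem gi_ge : 0.4192 ≤ gi := by
  have h1 := ff_anti.alternating_series_le_tendsto gi_tendsto 7
  refine le_trans ?_ h1
  simp only [show 2 * 7 = 14 from rfl, Finset.sum_range_succ, Finset.sum_range_zero, ff_succ, ff_zero]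
  norm_num

theorem gi_le : gi ≤ 1 := by
  have h1 := ff_anti.tendsto_le_alternating_series gi_tendsto 0
  simpa [ff_zero] using h1

end Pool.Agent.Y697.PQ
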